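import Mathlib

namespace Pool.Agent.Results.MP_4bc86c_co.NoRainbowCycle

open Finset

/-- `c` is a proper edge-colouring of `K_n` (colours are natural numbers; the values of `c` on
the diagonal pairs `s(v,v)` play no role): two different edges sharing a vertex get different
colours. -/
def Proper {n : ℕ} (c : Sym2 (Fin n) → ℕ) : Prop :=
  ∀ e ∈ (⊤ : SimpleGraph (Fin n)).edgeSet, ∀ f ∈ (⊤ : SimpleGraph (Fin n)).edgeSet,
    e ≠ f → (∃ v, v ∈ e ∧ v ∈ f) → c e ≠ c f

/-- The number of colours that `c` uses on the edges of `K_n`. -/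
noncomputable def numColours {n : ℕ} (c : Sym2 (Fin n) → ℕ) : ℕ :=
  (c '' (⊤ : SimpleGraph (Fin n)).edgeSet).ncard

/-- `c` is an optimal edge-colouring of `K_n`: it is proper and uses the minimum possible number
of colours among proper edge-colourings. -/
def Optimal {n : ℕ} (c : Sym2 (Fin n) → ℕ) : Prop :=
  Proper c ∧ ∀ c' : Sym2 (Fin n) → ℕ, Proper c' → numColours c ≤ numColours c'

/-- `K_n` has a cycle with `l` edges whose edges get pairwise different colours under `c`. -/
def HasRainbowCycle {n : ℕ} (c : Sym2 (Fin n) → ℕ) (l : ℕ) : Prop :=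
  ∃ (v : Fin n) (p : (⊤ : SimpleGraph (Fin n)).Walk v v),
    p.IsCycle ∧ p.length = l ∧ (p.edges.map c).Nodup

lemma fin_img {n : ℕ} (c : Sym2 (Fin n) → ℕ) :
    (c '' (⊤ : SimpleGraph (Fin n)).edgeSet).Finite := (Set.toFinite _).image _

lemma star_inj {n : ℕ} {c : Sym2 (Fin n) → ℕ} (hc : Proper c) (v : Fin n) :
    Set.InjOn (fun a => c s(v, a)) ((univ.erase v : Finset (Fin n)) : Set (Fin n)) := by
  intro a ha b hb hab
  by_contra hne
  have ha' : a ≠ v := by simpa using ha
  have hb' : b ≠ v := by simpa using hb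
  refine hc s(v, a) (by simpa using ha'.symm) s(v, b) (by simpa using hb'.symm) ?_
    ⟨v, by simp, by simp⟩ hab
  intro h
  exact hne (Sym2.congr_right.mp h)

lemma star_sub {n : ℕ} (c : Sym2 (Fin n) → ℕ) (v : Fin n) :
    (univ.erase v).image (fun a => c s(v, a)) ⊆ (fin_img c).toFinset := by
  intro x hx
  obtain ⟨a, ha, rfl⟩ := mem_image.mp hx
  have ha' : a ≠ v := by simpa using ha
  simp only [Set.Finite.mem_toFinset]
  exact ⟨s(v, a), by simpa using ha'.symm, rfl⟩

lemma star_card {n : ℕ} {c : Sym2 (Fin n) → ℕ} (hc : Proper c) (v : Fin n) :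
    ((univ.erase v).image (fun a => c s(v, a))).card = n - 1 := by
  rw [card_image_of_injOn (star_inj hc v)]
  simp

lemma num_eq {n : ℕ} (c : Sym2 (Fin n) → ℕ) : numColours c = (fin_img c).toFinset.card :=
  Set.ncard_eq_toFinset_card _ _

lemma lower {n : ℕ} (hn : 0 < n) {c : Sym2 (Fin n) → ℕ} (hc : Proper c) :
    n - 1 ≤ numColours c := by
  rw [num_eq, ← star_card hc ⟨0, hn⟩]
  exact card_le_card (star_sub c _)

lemma lower_odd {n : ℕ} (hn : 1 < n) (ho : Odd n) {c : Sym2 (Fin n) → ℕ} (hc : Proper c) :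
    n ≤ numColours c := by
  by_contra hlt
  have hle : (fin_img c).toFinset.card ≤ n - 1 := by rw [← num_eq]; omega
  have hall : ∀ v, (univ.erase v).image (fun a => c s(v, a)) = (fin_img c).toFinset := fun v =>
    eq_of_subset_of_card_le (star_sub c v) (by rw [star_card hc v]; exact hle)
  have hx : c s(⟨0, by omega⟩, ⟨1, hn⟩) ∈ (fin_img c).toFinset := by
    simp only [Set.Finite.mem_toFinset]
    exact ⟨_, by simp, rfl⟩
  set x := c s(⟨0, by omega⟩, ⟨1, hn⟩)
  have hm : ∀ v, ∃ a, a ≠ v ∧ c s(v, a) = x := by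
    intro v
    rw [← hall v] at hx
    obtain ⟨a, ha, h⟩ := mem_image.mp hx
    exact ⟨a, by simpa using ha, h⟩
  choose m hm1 hm2 using hm
  have hinv : ∀ v, m (m v) = v := by
    intro v
    apply star_inj hc (m v)
    · simpa using hm1 (m v)
    · simpa using (hm1 v).symm
    · show c s(m v, m (m v)) = c s(m v, v)
      rw [hm2, Sym2.eq_swap, hm2]
  have hs : ∑ _v : Fin n, (1 : ZMod 2) = 0 :=
    sum_involution (fun v _ => m v) (fun _ _ => by decide) (fun v _ _ => hm1 v)
      (fun _ _ => mem_univ _) (fun v _ => hinv v)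
  simp only [sum_const, card_univ, Fintype.card_fin, nsmul_eq_mul, mul_one] at hs
  rw [ZMod.natCast_eq_zero_iff_even] at hs
  exact (Nat.not_even_iff_odd.mpr ho) hs

section
variable {K : Type} [Field K] [Fintype K] [DecidableEq K] [CharP K 2] {n : ℕ}

/-- The edge `s(a,b)` gets the field element `φ a + φ b`. -/
def ecol (φ : Fin n → K) : Sym2 (Fin n) → K :=
  Sym2.lift ⟨fun a b => φ a + φ b, fun _ _ => add_comm _ _⟩

omit [Fintype K] [DecidableEq K] in
lemma walk_sum (φ : Fin n → K) {u v : Fin n} (p : (⊤ : SimpleGraph (Fin n)).Walk u v) :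
    (p.edges.map (ecol φ)).sum = φ u + φ v := by
  induction p with
  | nil => simp [CharTwo.add_self_eq_zero]
  | @cons a b d h q ih =>
    rw [SimpleGraph.Walk.edges_cons, List.map_cons, List.sum_cons, ih]
    have h1 : ecol φ s(a, b) = φ a + φ b := rfl
    have : φ b + φ b = 0 := CharTwo.add_self_eq_zero _
    linear_combination this + h1

omit [Fintype K] [DecidableEq K] in
lemma ecol_ne (φ : Fin n → K) (hφ : Function.Injective φ) {e : Sym2 (Fin n)}
    (he : e ∈ (⊤ : SimpleGraph (Fin n)).edgeSet) : ecol φ e ≠ 0 := by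
  induction e using Sym2.ind with
  | _ a b =>
    have hab : a ≠ b := by simpa using he
    intro h
    apply hab
    apply hφ
    have h' : φ a + φ b = 0 := h
    have : φ b + φ b = 0 := CharTwo.add_self_eq_zero _
    linear_combination h' - this

lemma core (φ : Fin n → K) (hφ : Function.Injective φ) (hK : 2 < Fintype.card K) (hn2 : 2 ≤ n)
    (hn : n = Fintype.card K ∨ n + 1 = Fintype.card K) :
    ∃ c : Sym2 (Fin n) → ℕ, Proper c ∧ numColours c ≤ Fintype.card K - 1 ∧
      ¬ HasRainbowCycle c (n - 2) := by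
  let enc : K → ℕ := fun x => (Fintype.equivFin K x : ℕ)
  have henc : Function.Injective enc := fun x y h =>
    (Fintype.equivFin K).injective (Fin.ext h)
  refine ⟨enc ∘ ecol φ, ?_, ?_, ?_⟩
  · rintro e he f hf hne ⟨v, hve, hvf⟩ h
    obtain ⟨a, rfl⟩ := Sym2.mem_iff_exists.mp hve
    obtain ⟨b, rfl⟩ := Sym2.mem_iff_exists.mp hvf
    have h' : φ v + φ a = φ v + φ b := henc h
    exact hne (by rw [hφ (add_left_cancel h')])
  · rw [num_eq]
    calc _ ≤ ((univ.erase (0 : K)).image enc).card := by
          apply card_le_card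
          intro x hx
          simp only [Set.Finite.mem_toFinset] at hx
          obtain ⟨e, he, rfl⟩ := hx
          exact mem_image.mpr ⟨ecol φ e, by simpa using ecol_ne φ hφ he, rfl⟩
      _ ≤ (univ.erase (0 : K)).card := card_image_le
      _ = _ := by simp
  · rintro ⟨v, p, -, hl, hnd⟩
    rw [← List.map_map] at hnd
    have hnd' := hnd.of_map
    set L := p.edges.map (ecol φ) with hL
    have hsum : ∑ x ∈ L.toFinset, x = 0 := by
      rw [List.sum_toFinset _ hnd', List.map_id', hL, walk_sum]
      exact CharTwo.add_self_eq_zero _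
    have hsub : L.toFinset ⊆ univ.erase 0 := by
      intro x hx
      rw [List.mem_toFinset, hL, List.mem_map] at hx
      obtain ⟨e, he, rfl⟩ := hx
      simpa using ecol_ne φ hφ (p.edges_subset_edgeSet he)
    have hcard : L.toFinset.card = n - 2 := by
      rw [List.toFinset_card_of_nodup hnd', hL, List.length_map, SimpleGraph.Walk.length_edges, hl]
    have htot : ∑ x ∈ univ.erase (0 : K), x = 0 := by
      rw [sum_erase (f := fun x : K => x) _ rfl]
      have := FiniteField.sum_pow_lt_card_sub_one K 1 (by omega)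
      simpa using this
    have hT : ∑ x ∈ univ.erase (0 : K) \ L.toFinset, x = 0 := by
      have := sum_sdiff (f := fun x : K => x) hsub
      rw [hsum, htot] at this
      simpa using this
    have hTc : (univ.erase (0 : K) \ L.toFinset).card = Fintype.card K - 1 - (n - 2) := by
      rw [card_sdiff_of_subset hsub, hcard]
      simp
    rcases hn with hn | hn
    · obtain ⟨a, ha⟩ := card_eq_one.mp (show (univ.erase (0 : K) \ L.toFinset).card = 1 by omega)
      have ha0 : a ∈ univ.erase (0 : K) \ L.toFinset := by rw [ha]; simp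
      rw [ha, sum_singleton] at hT
      simp [hT] at ha0
    · obtain ⟨a, b, hab, ha⟩ :=
        card_eq_two.mp (show (univ.erase (0 : K) \ L.toFinset).card = 2 by omega)
      rw [ha, sum_pair hab] at hT
      apply hab
      have : b + b = 0 := CharTwo.add_self_eq_zero _
      linear_combination hT - this

end

/-- For `n = 2^k` and `n = 2^k - 1` with `k ≥ 3` (so `n ≥ 7`), some optimal edge-colouring of
`K_n` has no rainbow cycle of length `n - 2`. -/
theorem result : ∀ k n : ℕ, 3 ≤ k → (n = 2 ^ k ∨ n = 2 ^ k - 1) →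
    5 ≤ n ∧ ∃ c : Sym2 (Fin n) → ℕ, Optimal c ∧ ¬ HasRainbowCycle c (n - 2) := by
  intro k n hk hn
  classical
  have h8 : 8 ≤ 2 ^ k := by
    calc 8 = 2 ^ 3 := by norm_num
      _ ≤ 2 ^ k := Nat.pow_le_pow_right (by norm_num) hk
  haveI : Fact (Nat.Prime 2) := ⟨Nat.prime_two⟩
  letI : Fintype (GaloisField 2 k) := Fintype.ofFinite _
  have hcard : Fintype.card (GaloisField 2 k) = 2 ^ k := by
    rw [← Nat.card_eq_fintype_card]
    exact GaloisField.card 2 k (by omega)
  have hle : Fintype.card (Fin n) ≤ Fintype.card (GaloisField 2 k) := by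
    rw [hcard, Fintype.card_fin]; omega
  obtain ⟨φ⟩ := Function.Embedding.nonempty_of_card_le hle
  obtain ⟨c, hc, hnum, hno⟩ := core φ φ.injective (by omega) (by omega) (by omega)
  refine ⟨by omega, c, ⟨hc, fun c' hc' => hnum.trans ?_⟩, hno⟩
  rw [hcard]
  rcases hn with hn | hn
  · have := lower (by omega) hc'
    omega
  · have hev : Even (2 ^ k) := (Nat.even_pow' (by omega)).mpr even_two
    have ho : Odd n := by
      rw [hn]
      exact Nat.Even.sub_odd (by omega) hev odd_one
    have := lower_odd (by omega) ho hc'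
    omega

end Pool.Agent.Results.MP_4bc86c_co.NoRainbowCycle
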